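import Mathlib
import Pool.Agent.helper92.GFL.Final

/-!
# Open crossings of an annulus of linear length in the level sets of the planar DGFF

For `0 < α < β < 1` there are constants `C, c, lam0 > 0` such that for all `lam ≥ lam0`, all
`t > 0` and all `N` with `α N ≥ 1` the chemical distance between `∂V_{αN}` and `∂V_{βN}` in the
level set `{η_N ≤ lam}` is at most `t N` with probability at least
`1 - C exp (-c lam ^ 2) - C / t`.

Method: a finite range decomposition of the field with Chebyshev polynomials of the walk;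
random hierarchical monotone paths (free detours in the graph metric) give circuits of linear
length at a high level; an accounting of the breadth first exploration of the level set with
harmonic observables, over all scales, lowers the level; induction over the scales.
-/

namespace Pool.Agent.Results.MP_7362d9_pr.LinearCrossing

open MeasureTheory Pool.H92.GFF
open scoped ENNReal

universe u

theorem result (α β : ℝ) (hα : 0 < α) (hαβ : α < β) (hβ : β < 1) :
    ∃ C c lam0 : ℝ, 0 < C ∧ 0 < c ∧ 0 < lam0 ∧ ∀ lam : ℝ, lam0 ≤ lam → ∀ t : ℝ, 0 < t →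
      ∀ N : ℕ, 1 ≤ α * N →
      ∀ (Ω : Type u) [MeasurableSpace Ω] (μ : Measure Ω) (η : ℤ × ℤ → Ω → ℝ), IsDGFF N μ η →
        ENNReal.ofReal (1 - C * Real.exp (-(c * lam ^ 2)) - C / t) ≤
          μ {ω | (chem N (fun v => η v ω) lam (bd ⌊α * N⌋₊) (bd ⌊β * N⌋₊) : ℝ≥0∞) ≤
            ENNReal.ofReal (t * N)} := by
  obtain ⟨C, c, lam0, hC, hc, hlam0, H⟩ := Pool.H92.GFL.main_bound.{u} α β hα hαβ hβ
  refine ⟨C, c, lam0, hC, hc, hlam0, ?_⟩
  intro lam hlam t ht N hN Ω _ μ η h
  have hprob := h.isProb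
  have h1 := H N hN lam t hlam ht Ω μ η h
  set A : Set Ω := {ω | (chem N (fun v => η v ω) lam (bd ⌊α * N⌋₊) (bd ⌊β * N⌋₊) : ℝ≥0∞) ≤
            ENNReal.ofReal (t * N)} with hA
  have h2 : (1 : ℝ≥0∞) ≤ μ A + μ {ω | ENNReal.ofReal (t * N) <
        (chem N (fun v => η v ω) lam (bd ⌊α * N⌋₊) (bd ⌊β * N⌋₊) : ℝ≥0∞)} := by
    have h3 : (Set.univ : Set Ω) ⊆ A ∪ {ω | ENNReal.ofReal (t * N) <
        (chem N (fun v => η v ω) lam (bd ⌊α * N⌋₊) (bd ⌊β * N⌋₊) : ℝ≥0∞)} := by
      intro ω _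
      rcases le_or_gt (chem N (fun v => η v ω) lam (bd ⌊α * N⌋₊) (bd ⌊β * N⌋₊) : ℝ≥0∞)
        (ENNReal.ofReal (t * N)) with h4 | h4
      · exact Or.inl h4
      · exact Or.inr h4
    calc (1 : ℝ≥0∞) = μ Set.univ := measure_univ.symm
      _ ≤ μ (A ∪ {ω | ENNReal.ofReal (t * N) <
        (chem N (fun v => η v ω) lam (bd ⌊α * N⌋₊) (bd ⌊β * N⌋₊) : ℝ≥0∞)}) := measure_mono h3
      _ ≤ _ := measure_union_le _ _
  have h5 : (1 : ℝ≥0∞) ≤ μ A + ENNReal.ofReal (C * Real.exp (-(c * lam ^ 2)) + C / t) :=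
    h2.trans (add_le_add le_rfl h1)
  have h6 : 0 ≤ C * Real.exp (-(c * lam ^ 2)) + C / t := by
    have := Real.exp_pos (-(c * lam ^ 2))
    positivity
  rw [sub_sub, ENNReal.ofReal_sub _ h6, ENNReal.ofReal_one]
  exact tsub_le_iff_right.2 h5

end Pool.Agent.Results.MP_7362d9_pr.LinearCrossing
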